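import Pool.Agent.Q80.BS.Er

set_option autoImplicit false

/-! Base shifts: the diagonal. -/

namespace Q80.BS

open MeasureTheory Filter Topology Complex Set
open scoped ContDiff
open Q97.MM (Adm wt wt_pos pt abs_le_scaled scaled_integrable scaled_integral)
open Q80.SP Q80.VS
open Pool.Agent.W182.KO (TF tau dk P P_bound P_diff P_inv J2 J2_nonneg)
open Pool.Agent.TH612.CF (FH zab)

noncomputable section

variable {k : ℕ} {ξ η : Fin k → ℝ} {p q : Fin k → ℝ → ℂ} {ξ1 : ℝ} {ψ : ℝ → ℂ}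

/-- a test function with a twist -/
def tw (a : ℝ) (ψ : ℝ → ℂ) (x : ℝ) : ℂ := ψ x * cexp (-((a * x : ℝ) : ℂ) * I)

theorem tw_norm (a : ℝ) (ψ : ℝ → ℂ) (x : ℝ) : ‖tw a ψ x‖ = ‖ψ x‖ := by
  unfold tw
  have e : -((a * x : ℝ) : ℂ) * I = ((-(a * x) : ℝ) : ℂ) * I := by push_cast; ring
  rw [norm_mul, e, Complex.norm_exp_ofReal_mul_I, mul_one]

theorem tw_TF (h : TF ξ1 ψ) (a : ℝ) : TF ξ1 (tw a ψ) where
  cd := by
    unfold tw
    refine h.cd.mul ?_
    refine ContDiff.cexp ?_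
    refine ContDiff.mul ?_ contDiff_const
    refine ContDiff.neg ?_
    exact Complex.ofRealCLM.contDiff.comp (contDiff_const.mul contDiff_id)
  cs := h.cs.mul_right
  sp x hx := by
    unfold tw
    rw [h.sp x hx, zero_mul]

theorem P_tw (a : ℝ) (ψ : ℝ → ℂ) (z : ℂ) : P (tw a ψ) z = P ψ (z - a * I) := by
  unfold P tw
  congr 1
  funext x
  rw [mul_assoc, ← Complex.exp_add]
  congr 2
  push_cast
  ring

theorem DP_tw {L : ℝ} (hL : 0 < L) (ψ : ℝ → ℂ) (a t : ℝ) :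
    DP 1 ψ L (t + a) = DP 1 (tw (a * L) ψ) L t := by
  unfold DP
  refine tsum_congr fun n => ?_
  rcases Nat.eq_zero_or_pos n with hn | hn
  · subst hn
    rw [dk_zero]
    simp
  · have hn' : (n : ℂ) ≠ 0 := by exact_mod_cast hn.ne'
    have e1 : (n : ℂ) ^ (-(1 / 2 + ((t + a : ℝ) : ℂ) * I)) =
        cexp (-((a * L * (Real.log n / L) : ℝ) : ℂ) * I) * (n : ℂ) ^ (-(1 / 2 + (t : ℂ) * I)) := by
      have e2 : (-(1 / 2 + ((t + a : ℝ) : ℂ) * I)) = -(a * I) + -(1 / 2 + (t : ℂ) * I) := by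
        push_cast; ring
      rw [e2, Complex.cpow_add _ _ hn']
      congr 1
      rw [Complex.cpow_def_of_ne_zero hn', ← Complex.natCast_log]
      congr 1
      have e3 : a * L * (Real.log n / L) = a * Real.log n := by field_simp
      rw [e3]
      push_cast
      ring
    rw [e1]
    unfold tw
    ring

/-- twisted families -/
def twp (b : Fin k ⊕ Fin k → ℝ) (L : ℝ) (p : Fin k → ℝ → ℂ) (i : Fin k) : ℝ → ℂ :=
  tw (b (Sum.inl i) * L) (p i)

/-- twisted families -/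
def twq (b : Fin k ⊕ Fin k → ℝ) (L : ℝ) (q : Fin k → ℝ → ℂ) (j : Fin k) : ℝ → ℂ :=
  tw (b (Sum.inr j) * L) (q j)

theorem dpb_prod (hp : ∀ i, TF (ξ i) (p i)) (hq : ∀ i, TF (η i) (q i)) (b : Fin k ⊕ Fin k → ℝ)
    {L : ℝ} (hL : 0 < L) {N M : ℕ} (hN : ∀ i, Real.exp (ξ i * L) < N)
    (hN' : ∀ i, Real.exp (η i * L) < N) (hM : N ^ k < M) (t : ℝ) : ∏ e, dpb p q b L t e =
      pol M (ah (twp b L p) L) t * (starRingEnd ℂ) (pol M (ah (twq b L q) L) t) := by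
  rw [← dpe_prod (p := twp b L p) (q := twq b L q) (fun i => tw_TF (hp i) _)
    (fun i => tw_TF (hq i) _) hL hN hN' hM t]
  refine Finset.prod_congr rfl fun e _ => ?_
  rcases e with i | j
  · show DP 1 (p i) L (t + b (Sum.inl i)) = DP 1 (twp b L p i) L t
    exact DP_tw hL _ _ _
  · show (starRingEnd ℂ) (DP 1 (q j) L (t + b (Sum.inr j))) =
      (starRingEnd ℂ) (DP 1 (twq b L q j) L t)
    congr 1
    exact DP_tw hL _ _ _

theorem ge_tw (b : Fin k ⊕ Fin k → ℝ) (L : ℝ) (e : Fin k ⊕ Fin k) (x : ℝ) :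
    ge (twp b L p) (twq b L q) e x = ge p q e (x - L * b e) := by
  rcases e with i | j
  · show P (tw (b (Sum.inl i) * L) (p i)) (1 + x * I) / (2 * Real.pi) =
      P (p i) (1 + ((x - L * b (Sum.inl i) : ℝ) : ℂ) * I) / (2 * Real.pi)
    rw [P_tw]
    congr 2
    push_cast
    ring
  · show (starRingEnd ℂ) (P (tw (b (Sum.inr j) * L) (q j)) (1 + x * I) / (2 * Real.pi)) =
      (starRingEnd ℂ) (P (q j) (1 + ((x - L * b (Sum.inr j) : ℝ) : ℂ) * I) / (2 * Real.pi))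
    rw [P_tw]
    congr 3
    push_cast
    ring

/-- the shifted `zab` -/
def zs (b : Fin k ⊕ Fin k → ℝ) (L : ℝ) (z : Fin k ⊕ Fin k → ℝ) : ℂ :=
  zab (fun j => b (Sum.inl j) + (z (Sum.inl j) - I) * (L⁻¹ : ℝ))
    (fun j => b (Sum.inr j) + (z (Sum.inr j) + I) * (L⁻¹ : ℝ))

theorem diag_b (hp : ∀ i, TF (ξ i) (p i)) (hq : ∀ i, TF (η i) (q i)) (b : Fin k ⊕ Fin k → ℝ)
    {L : ℝ} (hL : 8 < L) {M : ℕ} (hM : Real.exp (L * ∑ i, ξ i) < M) :
    ∑ n ∈ Finset.range M, ah (twp b L p) L n * (starRingEnd ℂ) (ah (twq b L q) L n) =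
      ∫ z : Fin k ⊕ Fin k → ℝ, GG p q z * zs b L z := by
  have hL0 : 0 < L := by linarith
  rw [diag_int (p := twp b L p) (q := twq b L q) (fun i => tw_TF (hp i) _)
    (fun i => tw_TF (hq i) _) hL hM]
  have h1 : ∀ z : Fin k ⊕ Fin k → ℝ, GG (twp b L p) (twq b L q) z =
      GG p q (z - fun e => L * b e) := by
    intro z
    unfold GG
    refine Finset.prod_congr rfl fun e _ => ?_
    rw [ge_tw]
    rfl
  simp only [h1]
  rw [← integral_add_right_eq_self (fun z : Fin k ⊕ Fin k → ℝ =>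
    GG p q (z - fun e => L * b e) * zab (az L⁻¹ z) (bz L⁻¹ z)) (fun e => L * b e)]
  refine integral_congr_ae (Eventually.of_forall fun z => ?_)
  simp only [add_sub_cancel_right]
  congr 1
  unfold zs
  have hLc : (L : ℂ) ≠ 0 := Complex.ofReal_ne_zero.2 hL0.ne'
  congr 1
  · funext j
    unfold az
    simp only [Pi.add_apply]
    push_cast
    field_simp
    ring
  · funext j
    unfold bz
    simp only [Pi.add_apply]
    push_cast
    field_simp
    ring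

theorem ah_tw_bd (hp : ∀ i, TF (ξ i) (p i)) (c : Fin k → ℝ → ℝ) :
    ∃ C : ℝ, 0 ≤ C ∧ ∀ (L : ℝ) (n : ℕ), ‖ah (fun i => tw (c i L) (p i)) L n‖ ≤ C := by
  choose c' hc1 hc using fun i => Q80.VS.TF.bd (hp i)
  obtain ⟨D, hD0, hD⟩ := dk_bd k
  have hcp : 0 ≤ ∏ i, c' i := Finset.prod_nonneg fun i _ => by linarith [hc1 i]
  refine ⟨(∏ i, c' i) * D, by positivity, fun L n => ?_⟩
  rcases Nat.eq_zero_or_pos n with hn | hn
  · subst hn
    rw [ah_zero, norm_zero]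
    positivity
  have hn1 : (1 : ℝ) ≤ n := by exact_mod_cast hn
  have hn0 : (0 : ℝ) < n := by linarith
  unfold ah al
  rw [norm_mul, Complex.norm_real, Real.norm_of_nonneg (by positivity)]
  have h1 : ‖∑ f ∈ Nat.finMulAntidiag k n, ∏ i, tw (c i L) (p i) (Real.log (f i) / L)‖ ≤
      (∏ i, c' i) * dk k n := by
    calc ‖∑ f ∈ Nat.finMulAntidiag k n, ∏ i, tw (c i L) (p i) (Real.log (f i) / L)‖
        ≤ ∑ f ∈ Nat.finMulAntidiag k n, ‖∏ i, tw (c i L) (p i) (Real.log (f i) / L)‖ :=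
          norm_sum_le _ _
      _ ≤ ∑ _f ∈ Nat.finMulAntidiag k n, ∏ i, c' i := Finset.sum_le_sum fun f _ => by
          rw [norm_prod]
          exact Finset.prod_le_prod (fun i _ => norm_nonneg _) fun i _ => by
            rw [tw_norm]; exact hc i _
      _ = (∏ i, c' i) * dk k n := by
          rw [Finset.sum_const, nsmul_eq_mul, mul_comm]
          rfl
  have h2 : ((n : ℝ) ^ (1 / 4 : ℝ)) * (n : ℝ) ^ (-(1 / 2 : ℝ)) ≤ 1 := by
    rw [← Real.rpow_add hn0]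
    exact Real.rpow_le_one_of_one_le_of_nonpos hn1 (by norm_num)
  calc ‖∑ f ∈ Nat.finMulAntidiag k n, ∏ i, tw (c i L) (p i) (Real.log (f i) / L)‖ *
        (n : ℝ) ^ (-(1 / 2 : ℝ))
      ≤ ((∏ i, c' i) * (D * (n : ℝ) ^ (1 / 4 : ℝ))) * (n : ℝ) ^ (-(1 / 2 : ℝ)) := by
        gcongr
        refine h1.trans ?_
        gcongr
        exact hD n
    _ = (∏ i, c' i) * D * (((n : ℝ) ^ (1 / 4 : ℝ)) * (n : ℝ) ^ (-(1 / 2 : ℝ))) := by ring
    _ ≤ (∏ i, c' i) * D * 1 := by gcongr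
    _ = _ := mul_one _

end

end Q80.BS
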