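import Pool.Agent.Q80.VS.Mv

set_option autoImplicit false

/-! Base shifts: smoothed zeta factors against Dirichlet polynomials. -/

namespace Q80.BS

open MeasureTheory Filter Topology Complex Set
open Q97.MM (Adm wt wt_pos pt abs_le_scaled scaled_integrable scaled_integral)
open Q80.SP Q80.VS
open Pool.Agent.W182.KO (TF tau dk P P_bound P_diff P_inv J2 J2_nonneg)

noncomputable section

variable {k : ℕ} {ξ η : Fin k → ℝ} {p q : Fin k → ℝ → ℂ}

/-- the smoothed factors with base shifts -/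
def smb (p q : Fin k → ℝ → ℂ) (b : Fin k ⊕ Fin k → ℝ) (L t : ℝ) (e : Fin k ⊕ Fin k) : ℂ :=
  sme p q L (t + b e) e

/-- the Dirichlet polynomials with base shifts -/
def dpb (p q : Fin k → ℝ → ℂ) (b : Fin k ⊕ Fin k → ℝ) (L t : ℝ) (e : Fin k ⊕ Fin k) : ℂ :=
  dpe p q L (t + b e) e

/-- total size of the base shifts -/
def b0 (b : Fin k ⊕ Fin k → ℝ) : ℝ := ∑ e, |b e|

theorem b0_nonneg (b : Fin k ⊕ Fin k → ℝ) : 0 ≤ b0 b := Finset.sum_nonneg fun _ _ => abs_nonneg _

theorem le_b0 (b : Fin k ⊕ Fin k → ℝ) (e : Fin k ⊕ Fin k) : |b e| ≤ b0 b :=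
  Finset.single_le_sum (f := fun e => |b e|) (fun _ _ => abs_nonneg _) (Finset.mem_univ e)

theorem shift_sq (b : Fin k ⊕ Fin k → ℝ) (e : Fin k ⊕ Fin k) (t : ℝ) :
    (1 + |t + b e|) ^ 2 ≤ (1 + b0 b) ^ 2 * (1 + |t|) ^ 2 := by
  rw [← mul_pow]
  have h1 := abs_add_le t (b e)
  have h2 := le_b0 b e
  have h3 := b0_nonneg b
  have h4 : 1 + |t + b e| ≤ (1 + b0 b) * (1 + |t|) := by nlinarith [abs_nonneg t]
  gcongr

theorem errb (hp : ∀ i, TF (ξ i) (p i)) (hq : ∀ i, TF (η i) (q i)) (hξ : ∀ i, 0 ≤ ξ i)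
    (hη : ∀ i, 0 ≤ η i) (b : Fin k ⊕ Fin k → ℝ) (B0 : ℕ) :
    ∃ (C : ℝ) (B : ℕ), 0 ≤ C ∧ ∀ T U : ℝ, 4 + 4 * b0 b ≤ T → Adm T U → ∀ t : ℝ,
      ‖(∏ e, smb p q b (Real.log T) t e) - ∏ e, dpb p q b (Real.log T) t e‖ * wt T U t ≤
        C * ((T ^ B0)⁻¹ + T ^ B * Real.exp (-(Real.log T ^ 2 / 32))) *
          ((1 + |(t - T) / U|) ^ (4 * k) * Real.exp (-(((t - T) / U) ^ 2 / 2))) := by
  have hb0 := b0_nonneg b
  -- uniform constants
  choose c1 m1 hF1 using fun i => exists_FB (hp i) (hξ i)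
  choose c2 m2 hF2 using fun i => exists_FB (hq i) (hη i)
  set C9 : ℝ := 1 + (∑ i, c1 i) + ∑ i, c2 i with hC9
  set m : ℕ := (∑ i, m1 i) + ∑ i, m2 i with hm
  have hc1 : ∀ i, 0 ≤ c1 i := fun i => by linarith [(hF1 i).hC]
  have hc2 : ∀ i, 0 ≤ c2 i := fun i => by linarith [(hF2 i).hC]
  have hs1 : 0 ≤ ∑ i, c1 i := Finset.sum_nonneg fun i _ => hc1 i
  have hs2 : 0 ≤ ∑ i, c2 i := Finset.sum_nonneg fun i _ => hc2 i
  have hG1 : ∀ i, FB (p i) C9 m := fun i => (hF1 i).mono
    (by have := Finset.single_le_sum (f := c1) (fun i _ => hc1 i) (Finset.mem_univ i); linarith)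
    (by
      have := Finset.single_le_sum (f := m1) (fun i _ => Nat.zero_le _) (Finset.mem_univ i)
      omega)
  have hG2 : ∀ i, FB (q i) C9 m := fun i => (hF2 i).mono
    (by have := Finset.single_le_sum (f := c2) (fun i _ => hc2 i) (Finset.mem_univ i); linarith)
    (by
      have := Finset.single_le_sum (f := m2) (fun i _ => Nat.zero_le _) (Finset.mem_univ i)
      omega)
  have hC91 : 1 ≤ C9 := by linarith
  set C0 : ℝ := C9 * (1 + b0 b) ^ 2 with hC0
  have hC01 : 1 ≤ C0 := by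
    have : 1 ≤ (1 + b0 b) ^ 2 := one_le_pow₀ (by linarith)
    rw [hC0]
    nlinarith
  -- the difference
  set A : ℕ := 2 * k * (m + 2) + B0 with hA
  choose d1 hd1 ha1 using fun i => apx 1 (hp i) (hξ i) A
  choose d2 hd2 ha2 using fun i => apx 1 (hq i) (hη i) A
  set D : ℝ := (∑ i, d1 i) + ∑ i, d2 i with hD
  have hD1 : 0 ≤ ∑ i, d1 i := Finset.sum_nonneg fun i _ => hd1 i
  have hD2 : 0 ≤ ∑ i, d2 i := Finset.sum_nonneg fun i _ => hd2 i
  have hD0 : 0 ≤ D := by linarith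
  have hbb : ∀ T : ℝ, 4 ≤ T → ∀ (f : Fin k ⊕ Fin k → ℝ → ℂ),
      (∀ t e, ‖f e t‖ ≤ C9 * T ^ m * (1 + |t|) ^ 2) → ∀ t e,
      ‖f e (t + b e)‖ ≤ C0 * T ^ m * (1 + |t|) ^ 2 := by
    intro T hT f hf t e
    have hT0 : 0 < T := by linarith
    refine (hf (t + b e) e).trans ?_
    calc C9 * T ^ m * (1 + |t + b e|) ^ 2 ≤ C9 * T ^ m * ((1 + b0 b) ^ 2 * (1 + |t|) ^ 2) := by
          gcongr
          exact shift_sq b e t
      _ = _ := by rw [hC0]; ring
  have hb : ∀ T : ℝ, 4 ≤ T → ∀ t e, ‖smb p q b (Real.log T) t e‖ ≤ C0 * T ^ m * (1 + |t|) ^ 2 := by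
    intro T hT
    refine hbb T hT (fun e t => sme p q (Real.log T) t e) ?_
    rintro t (i | j)
    · exact (hG1 i).bs T hT t
    · show ‖(starRingEnd ℂ) (sm (q j) (Real.log T) (hz 1) t)‖ ≤ _
      rw [RCLike.norm_conj]
      exact (hG2 j).bs T hT t
  have hb' : ∀ T : ℝ, 4 ≤ T → ∀ t e, ‖dpb p q b (Real.log T) t e‖ ≤ C0 * T ^ m * (1 + |t|) ^ 2 := by
    intro T hT
    refine hbb T hT (fun e t => dpe p q (Real.log T) t e) ?_
    rintro t (i | j)
    · exact (hG1 i).bd T hT t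
    · show ‖(starRingEnd ℂ) (DP 1 (q j) (Real.log T) t)‖ ≤ _
      rw [RCLike.norm_conj]
      exact (hG2 j).bd T hT t
  have hdf0 : ∀ T : ℝ, 4 ≤ T → ∀ t : ℝ, |t - T| ≤ T / 2 → ∀ e,
      ‖sme p q (Real.log T) t e - dpe p q (Real.log T) t e‖ ≤ D / T ^ A := by
    rintro T hT t ht (i | j)
    · have hT0 : 0 < T := by linarith
      have h1 := ha1 i T hT t ht
      rw [norm_sub_rev] at h1
      refine h1.trans ?_
      have := Finset.single_le_sum (f := d1) (fun i _ => hd1 i) (Finset.mem_univ i)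
      gcongr
      linarith
    · have hT0 : 0 < T := by linarith
      show ‖(starRingEnd ℂ) (sm (q j) (Real.log T) (hz 1) t) -
        (starRingEnd ℂ) (DP 1 (q j) (Real.log T) t)‖ ≤ _
      rw [← map_sub, RCLike.norm_conj]
      have h1 := ha2 j T hT t ht
      rw [norm_sub_rev] at h1
      refine h1.trans ?_
      have := Finset.single_le_sum (f := d2) (fun i _ => hd2 i) (Finset.mem_univ j)
      gcongr
      linarith
  have hdf : ∀ T : ℝ, 4 + 4 * b0 b ≤ T → ∀ t : ℝ, |t - T| ≤ T / 4 → ∀ e,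
      ‖smb p q b (Real.log T) t e - dpb p q b (Real.log T) t e‖ ≤ D / T ^ A := by
    intro T hT t ht e
    refine hdf0 T (by linarith) (t + b e) ?_ e
    have h1 := abs_add_le (t - T) (b e)
    have h2 := le_b0 b e
    rw [show t + b e - T = t - T + b e by ring]
    linarith
  have hcard : (Finset.univ : Finset (Fin k ⊕ Fin k)).card = 2 * k := by
    rw [Finset.card_univ, Fintype.card_sum, Fintype.card_fin]
    ring
  refine ⟨2 * k * (9 * C0) ^ (2 * k) * D + 2 * C0 ^ (2 * k) * 2 ^ (4 * k), 2 * k * m + 4 * k,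
    by positivity, fun T U hT' hAd t => ?_⟩
  have hT : 4 ≤ T := by linarith
  have hT0 : 0 < T := by linarith
  have hT1 : 1 ≤ T := by linarith
  have hU := hAd.pos
  have hL1 := log_one hT
  set x : ℝ := (t - T) / U with hx
  have hE0 : 0 < T ^ (2 * k * m + 4 * k) * Real.exp (-(Real.log T ^ 2 / 32)) := by positivity
  have hx1 : 1 ≤ (1 + |x|) ^ (4 * k) := one_le_pow₀ (by linarith [abs_nonneg x])
  have hwt : wt T U t = Real.exp (-(x ^ 2)) := by unfold wt; rw [hx]
  have hTm : 1 ≤ T ^ m := one_le_pow₀ hT1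
  by_cases ht : |t - T| ≤ T / 4
  · have ht3 : 1 + |t| ≤ 3 * T := by
      rw [abs_le] at ht
      rw [abs_of_nonneg (by linarith [ht.1])]
      linarith [ht.2]
    have hBT : C0 * T ^ m * (1 + |t|) ^ 2 ≤ (9 * C0) * T ^ (m + 2) := by
      calc C0 * T ^ m * (1 + |t|) ^ 2 ≤ C0 * T ^ m * (3 * T) ^ 2 := by gcongr
        _ = _ := by rw [pow_add]; ring
    have hB1 : 1 ≤ (9 * C0) * T ^ (m + 2) := by
      have : 1 ≤ T ^ (m + 2) := one_le_pow₀ hT1
      nlinarith
    have h1 := (Pool.Agent.Q80.TM.prod_sub Finset.univ hB1 (show 0 ≤ D / T ^ A by positivity)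
      (fun e => (hb T hT t e).trans hBT) (fun e => (hb' T hT t e).trans hBT)
      (fun e => hdf T hT' t ht e)).2.2
    rw [hcard] at h1
    have h2 : ((2 * k : ℕ) : ℝ) * ((9 * C0) * T ^ (m + 2)) ^ (2 * k) * (D / T ^ A) =
        2 * k * (9 * C0) ^ (2 * k) * D * (T ^ B0)⁻¹ := by
      rw [mul_pow, ← pow_mul, hA, pow_add, show (m + 2) * (2 * k) = 2 * k * (m + 2) by ring]
      push_cast
      field_simp
    rw [h2] at h1
    have h3 : wt T U t ≤ (1 + |x|) ^ (4 * k) * Real.exp (-(x ^ 2 / 2)) := by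
      rw [hwt]
      have : Real.exp (-(x ^ 2)) ≤ Real.exp (-(x ^ 2 / 2)) := by
        apply Real.exp_le_exp.2
        nlinarith [sq_nonneg x]
      nlinarith [Real.exp_pos (-(x ^ 2 / 2))]
    calc _ ≤ (2 * k * (9 * C0) ^ (2 * k) * D * (T ^ B0)⁻¹) *
          ((1 + |x|) ^ (4 * k) * Real.exp (-(x ^ 2 / 2))) := by
          apply mul_le_mul h1 h3 (wt_pos _ _ _).le (by positivity)
      _ ≤ _ := by
          apply mul_le_mul_of_nonneg_right _ (by positivity)
          have i1 : 0 ≤ 2 * C0 ^ (2 * k) * 2 ^ (4 * k) := by positivity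
          have i2 : 0 ≤ 2 * k * (9 * C0) ^ (2 * k) * D := by positivity
          have i3 : 0 < (T ^ B0)⁻¹ := by positivity
          nlinarith [mul_nonneg i1 i3.le, mul_nonneg i1 hE0.le, mul_nonneg i2 hE0.le]
  · push Not at ht
    have h1 : ∀ (a : Fin k ⊕ Fin k → ℂ), (∀ e, ‖a e‖ ≤ C0 * T ^ m * (1 + |t|) ^ 2) →
        ‖∏ e, a e‖ ≤ C0 ^ (2 * k) * T ^ (2 * k * m) * (1 + |t|) ^ (4 * k) := by
      intro a ha
      rw [norm_prod]
      refine (Finset.prod_le_prod (fun _ _ => norm_nonneg _) fun e _ => ha e).trans (le_of_eq ?_)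
      rw [Finset.prod_const, hcard, mul_pow, mul_pow, ← pow_mul, ← pow_mul]
      congr 2
      · congr 1; ring
      · ring
    have h2 : ‖(∏ e, smb p q b (Real.log T) t e) - ∏ e, dpb p q b (Real.log T) t e‖ ≤
        2 * (C0 ^ (2 * k) * T ^ (2 * k * m) * (1 + |t|) ^ (4 * k)) := by
      refine (norm_sub_le _ _).trans ?_
      have := h1 _ (hb T hT t)
      have := h1 _ (hb' T hT t)
      linarith
    have h3 : (1 + |t|) ^ (4 * k) ≤ (2 * T) ^ (4 * k) * (1 + |x|) ^ (4 * k) := by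
      rw [← mul_pow]
      have h4 := abs_le_scaled hU hT0.le hAd.le t
      have h5 : (1 + T) * (1 + |(t - T) / U|) ≤ 2 * T * (1 + |(t - T) / U|) := by
        apply mul_le_mul_of_nonneg_right _ (by positivity)
        linarith
      gcongr
      exact h4.trans h5
    have h6 : wt T U t ≤ Real.exp (-(Real.log T ^ 2 / 32)) * Real.exp (-(x ^ 2 / 2)) := by
      rw [hwt, ← Real.exp_add]
      apply Real.exp_le_exp.2
      have h7 : Real.log T / 4 ≤ |x| := by
        rw [hx, abs_div, abs_of_pos hU, le_div_iff₀ hU]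
        have h8 := hAd.2.2
        rw [le_div_iff₀ (by linarith)] at h8
        nlinarith
      have h9 : Real.log T ^ 2 / 16 ≤ x ^ 2 := by
        rw [← sq_abs x]
        nlinarith
      linarith
    calc _ ≤ (2 * (C0 ^ (2 * k) * T ^ (2 * k * m) * ((2 * T) ^ (4 * k) * (1 + |x|) ^ (4 * k)))) *
          (Real.exp (-(Real.log T ^ 2 / 32)) * Real.exp (-(x ^ 2 / 2))) := by
          apply mul_le_mul _ h6 (wt_pos _ _ _).le (by positivity)
          refine h2.trans ?_
          gcongr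
      _ = (2 * C0 ^ (2 * k) * 2 ^ (4 * k)) * (T ^ (2 * k * m + 4 * k) *
            Real.exp (-(Real.log T ^ 2 / 32))) * ((1 + |x|) ^ (4 * k) * Real.exp (-(x ^ 2 / 2))) := by
          rw [mul_pow, pow_add]
          ring
      _ ≤ _ := by
          apply mul_le_mul_of_nonneg_right _ (by positivity)
          have i1 : 0 ≤ 2 * C0 ^ (2 * k) * 2 ^ (4 * k) := by positivity
          have i2 : 0 ≤ 2 * k * (9 * C0) ^ (2 * k) * D := by positivity
          have i3 : 0 < (T ^ B0)⁻¹ := by positivity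
          nlinarith [mul_nonneg i1 i3.le, mul_nonneg i2 i3.le, mul_nonneg i2 hE0.le]

/-- Fubini with base shifts -/
theorem fubb (hp : ∀ i, TF (ξ i) (p i)) (hq : ∀ i, TF (η i) (q i)) (b : Fin k ⊕ Fin k → ℝ)
    {T U : ℝ} (hT : 4 ≤ T) (hA : Adm T U) :
    ∫ z : Fin k ⊕ Fin k → ℝ, (∏ e, fe p q e (z e)) *
        Pool.Agent.Q80.TM.SS k T U (fun e => ((z e + Real.log T * b e : ℝ) : ℂ)) =
      ∫ t : ℝ, (∏ e, smb p q b (Real.log T) t e) * (wt T U t : ℂ) := by
  have hL1 := log_one hT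
  have hL0 : 0 < Real.log T := by linarith
  have hb0 := b0_nonneg b
  have hze : ∀ (t : ℝ) (z : Fin k ⊕ Fin k → ℝ) (e : Fin k ⊕ Fin k),
      ze (Real.log T) t e (z e + Real.log T * b e) = ze (Real.log T) (t + b e) e (z e) := by
    intro t z e
    have e1 : t + (z e + Real.log T * b e) / Real.log T = t + b e + z e / Real.log T := by
      field_simp
      ring
    rcases e with i | j
    · show hz 1 (t + (z (Sum.inl i) + Real.log T * b (Sum.inl i)) / Real.log T) = _
      rw [e1]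
      rfl
    · show (starRingEnd ℂ) (hz 1 (t + (z (Sum.inr j) + Real.log T * b (Sum.inr j)) / Real.log T)) = _
      rw [e1]
      rfl
  have h1 : ∀ z : Fin k ⊕ Fin k → ℝ, (∏ e, fe p q e (z e)) *
      Pool.Agent.Q80.TM.SS k T U (fun e => ((z e + Real.log T * b e : ℝ) : ℂ)) =
      ∫ t : ℝ, (∏ e, fe p q e (z e) * ze (Real.log T) (t + b e) e (z e)) * (wt T U t : ℂ) := by
    intro z
    unfold Pool.Agent.Q80.TM.SS
    rw [← integral_const_mul]
    refine integral_congr_ae (Eventually.of_forall fun t => ?_)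
    simp only
    rw [ff_ze t (fun e => z e + Real.log T * b e), Finset.prod_mul_distrib]
    simp only [hze]
    ring
  simp only [h1]
  rw [integral_integral_swap]
  · refine integral_congr_ae (Eventually.of_forall fun t => ?_)
    simp only
    rw [integral_mul_const, integral_fintype_prod_volume_eq_prod
      (fun e x => fe p q e x * ze (Real.log T) (t + b e) e x)]
    congr 1
    exact Finset.prod_congr rfl fun e _ => sme_eq hL0 p q (t + b e) e
  · have h2 : Integrable (fun x : (Fin k ⊕ Fin k → ℝ) × ℝ =>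
        (∏ e, ‖fe p q e (x.1 e)‖ * (180 * (1 + |x.1 e|) ^ 2)) *
          ((1 + b0 b) ^ (4 * k) * ((1 + |x.2|) ^ (4 * k) * wt T U x.2))) :=
      (Integrable.fintype_prod fun e => fe_int hp hq e).mul_prod
        ((poly_wt_bound (4 * k) hA).1.const_mul _)
    refine h2.mono' ?_ (Eventually.of_forall fun x => ?_)
    · have hc : Continuous (fun x : (Fin k ⊕ Fin k → ℝ) × ℝ =>
          (∏ e, fe p q e (x.1 e) * ze (Real.log T) (x.2 + b e) e (x.1 e)) * (wt T U x.2 : ℂ)) := by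
        refine Continuous.mul (continuous_finsetProd _ fun e _ => ?_) ?_
        · have h3 : Continuous (fun x : (Fin k ⊕ Fin k → ℝ) × ℝ => x.1 e) :=
            (continuous_apply e).comp continuous_fst
          have h4 : Continuous (fun x : (Fin k ⊕ Fin k → ℝ) × ℝ => x.2 + b e) :=
            continuous_snd.add continuous_const
          exact ((fe_cont hp hq e).comp h3).mul ((ze_cont (Real.log T) e).comp (h4.prodMk h3))
        · exact Complex.continuous_ofReal.comp ((wt_cont T U).comp continuous_snd)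
      exact hc.aestronglyMeasurable
    · show ‖(∏ e, fe p q e (x.1 e) * ze (Real.log T) (x.2 + b e) e (x.1 e)) * (wt T U x.2 : ℂ)‖ ≤ _
      rw [norm_mul, Complex.norm_real, Real.norm_of_nonneg (wt_pos _ _ _).le, norm_prod,
        ← mul_assoc ((1 + b0 b) ^ (4 * k)), ← mul_assoc]
      refine mul_le_mul_of_nonneg_right ?_ (wt_pos _ _ _).le
      have h4 : (1 + b0 b) ^ (4 * k) * (1 + |x.2|) ^ (4 * k) =
          ∏ _e : Fin k ⊕ Fin k, ((1 + b0 b) ^ 2 * (1 + |x.2|) ^ 2) := by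
        rw [Finset.prod_const, Finset.card_univ, Fintype.card_sum, Fintype.card_fin, mul_pow,
          ← pow_mul, ← pow_mul]
        congr 2 <;> ring
      rw [h4, ← Finset.prod_mul_distrib]
      refine Finset.prod_le_prod (fun _ _ => norm_nonneg _) fun e _ => ?_
      rw [norm_mul, mul_assoc]
      refine mul_le_mul_of_nonneg_left ((ze_bd hL1 _ _ _).trans ?_) (norm_nonneg _)
      exact mul_le_mul_of_nonneg_left (shift_sq b e x.2) (by positivity)

end

end Q80.BS
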