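import Pool.Agent.Q80.BS.Mn
import Pool.Agent.TH612.CF.Bd

set_option autoImplicit false

/-! Base shifts: the limit of the first term of the recipe on the shifted contour. -/

namespace Q80.BS

open MeasureTheory Filter Topology Complex Set
open Q80.SP Q80.VS
open Pool.Agent.W182.KO (TF tau dk P P_bound P_diff P_inv J2 J2_nonneg one_add_inv_sq_int)
open Pool.Agent.TH612.CF (FH FH_cont FH_le BF Tb zab zeta_cont zeta_sep)

noncomputable section

variable {k : ℕ} {ξ η : Fin k → ℝ} {p q : Fin k → ℝ → ℂ}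

/-- difference of base shifts -/
def dl (b : Fin k ⊕ Fin k → ℝ) (x : Fin k × Fin k) : ℝ := b (Sum.inl x.1) - b (Sum.inr x.2)

/-- the coincidences -/
def Co (b : Fin k ⊕ Fin k → ℝ) (x : Fin k × Fin k) : Prop := b (Sum.inl x.1) = b (Sum.inr x.2)

instance (b : Fin k ⊕ Fin k → ℝ) : DecidablePred (Co b) := fun _ => Classical.propDecidable _

theorem Co_iff (b : Fin k ⊕ Fin k → ℝ) (x : Fin k × Fin k) : Co b x ↔ dl b x = 0 := sub_eq_zero.symm

/-- the number of coincidences -/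
def nc (b : Fin k ⊕ Fin k → ℝ) : ℕ := (Finset.univ.filter (Co b)).card

/-- one zeta factor, normalised -/
def gx (b : Fin k ⊕ Fin k → ℝ) (L : ℝ) (x : Fin k × Fin k) (v : ℝ) : ℂ :=
  riemannZeta (1 + dl b x * I + (2 + v * I) * (L⁻¹ : ℝ)) / (if Co b x then (L : ℂ) else 1)

theorem gx_bd (b : Fin k ⊕ Fin k → ℝ) (x : Fin k × Fin k) : ∃ C : ℝ, 1 ≤ C ∧ ∀ᶠ L : ℝ in atTop,
    ∀ v : ℝ, ‖gx b L x v‖ ≤ C * (1 + |v|) ^ 2 := by
  by_cases h : Co b x
  · refine ⟨1, le_rfl, ?_⟩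
    filter_upwards [zeta_ev] with L hL v
    have h0 := (Co_iff b x).1 h
    unfold gx
    rw [if_pos h, h0, Complex.ofReal_zero, zero_mul, add_zero, one_mul]
    exact (hL v).trans (one_le_pow₀ (by linarith [abs_nonneg v]))
  · have h0 : dl b x ≠ 0 := fun hc => h ((Co_iff b x).2 hc)
    set δ := dl b x with hδ
    have hδ0 : 0 < |δ| := abs_pos.2 h0
    refine ⟨1 + 6 * (4 + |δ|) ^ 2 / |δ| + 2 / |δ|, by
      have : 0 ≤ 6 * (4 + |δ|) ^ 2 / |δ| := by positivity
      have : 0 ≤ 2 / |δ| := by positivity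
      linarith, ?_⟩
    filter_upwards [zeta_ev, eventually_ge_atTop 1] with L hL hL1 v
    have hL0 : 0 < L := by linarith
    have hLi : 0 < L⁻¹ := inv_pos.2 hL0
    have hLi1 : L⁻¹ ≤ 1 := inv_le_one_of_one_le₀ hL1
    unfold gx
    rw [if_neg h, div_one]
    set w : ℂ := 1 + δ * I + (2 + v * I) * (L⁻¹ : ℝ) with hw
    have hre : w.re = 1 + 2 * L⁻¹ := by rw [hw]; simp
    have him : w.im = δ + v * L⁻¹ := by rw [hw]; simp
    have hv0 := abs_nonneg v
    have p1 : 0 ≤ 6 * (4 + |δ|) ^ 2 / |δ| := by positivity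
    have p2 : 0 ≤ 2 / |δ| := by positivity
    have p3 : 0 ≤ (1 + |v|) ^ 2 := by positivity
    by_cases hc : |δ| / 2 ≤ ‖w - 1‖
    · have h1 := zeta_sep (w := w) (by rw [hre]; linarith) (show 0 < |δ| / 2 by positivity) hc
      have h2 : ‖w‖ + 1 ≤ (4 + |δ|) * (1 + |v|) := by
        have h3 : ‖w‖ ≤ |w.re| + |w.im| := Complex.norm_le_abs_re_add_abs_im w
        rw [hre, him] at h3
        have h4 : |1 + 2 * L⁻¹| ≤ 3 := by rw [abs_of_pos (by linarith)]; linarith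
        have h5 : |δ + v * L⁻¹| ≤ |δ| + |v| := by
          refine (abs_add_le _ _).trans ?_
          rw [abs_mul, abs_of_pos hLi]
          nlinarith
        nlinarith
      have h3 : 3 * (‖w‖ + 1) ^ 2 / (|δ| / 2) ≤ 6 * (4 + |δ|) ^ 2 / |δ| * (1 + |v|) ^ 2 := by
        calc 3 * (‖w‖ + 1) ^ 2 / (|δ| / 2) ≤ 3 * ((4 + |δ|) * (1 + |v|)) ^ 2 / (|δ| / 2) := by gcongr
          _ = _ := by rw [mul_pow]; field_simp; norm_num
      refine (h1.trans h3).trans ?_
      nlinarith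
    · push Not at hc
      have h1 : ‖riemannZeta w‖ ≤ L := by
        have h2 := zeta_re_le (s := w) (by rw [hre]; linarith)
        have h3 := hL 0
        rw [hre] at h2
        have e1 : (((1 + 2 * L⁻¹ : ℝ)) : ℂ) = 1 + (2 + ((0 : ℝ) : ℂ) * I) * ((L⁻¹ : ℝ) : ℂ) := by
          push_cast; ring
        rw [e1] at h2
        rw [norm_div, Complex.norm_real, Real.norm_of_nonneg hL0.le, div_le_one hL0] at h3
        exact h2.trans h3
      have h2 : |δ + v * L⁻¹| ≤ ‖w - 1‖ := by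
        have h3 := Complex.abs_im_le_norm (w - 1)
        rwa [Complex.sub_im, Complex.one_im, sub_zero, him] at h3
      have h3 : |δ| / 2 ≤ |v| * L⁻¹ := by
        have h4 : |δ| ≤ |δ + v * L⁻¹| + |v * L⁻¹| := by
          have := abs_sub_abs_le_abs_sub δ (-(v * L⁻¹))
          rw [sub_neg_eq_add, abs_neg] at this
          linarith
        rw [abs_mul v, abs_of_pos hLi] at h4
        linarith
      have h4 : L ≤ 2 / |δ| * |v| := by
        rw [div_le_iff₀ (by norm_num), mul_assoc] at h3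
        have h5 : |δ| * L ≤ 2 * |v| := by
          calc |δ| * L ≤ (|v| * (L⁻¹ * 2)) * L := by gcongr
            _ = 2 * |v| := by field_simp
        rw [div_mul_eq_mul_div, le_div_iff₀ hδ0]
        linarith
      refine (h1.trans h4).trans ?_
      have h5 : |v| ≤ (1 + |v|) ^ 2 := by nlinarith
      calc 2 / |δ| * |v| ≤ 2 / |δ| * (1 + |v|) ^ 2 := by gcongr
        _ ≤ _ := by nlinarith

theorem gx_lim (b : Fin k ⊕ Fin k → ℝ) (x : Fin k × Fin k) (v : ℝ) :
    Tendsto (fun L : ℝ => gx b L x v) atTop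
      (𝓝 (if Co b x then 1 / (2 + v * I) else riemannZeta (1 + dl b x * I))) := by
  by_cases h : Co b x
  · have h0 := (Co_iff b x).1 h
    unfold gx
    simp only [if_pos h, h0, Complex.ofReal_zero, zero_mul, add_zero]
    refine zeta_scale ?_
    intro hcon
    have := congrArg Complex.re hcon
    simp at this
  · have h0 : dl b x ≠ 0 := fun hc => h ((Co_iff b x).2 hc)
    unfold gx
    simp only [if_neg h, div_one]
    have h2 : Tendsto (fun L : ℝ => ((L⁻¹ : ℝ) : ℂ)) atTop (𝓝 0) := by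
      have := (Complex.continuous_ofReal.tendsto 0).comp (tendsto_inv_atTop_zero (𝕜 := ℝ))
      rwa [Complex.ofReal_zero] at this
    have h3 : Tendsto (fun L : ℝ => 1 + dl b x * I + (2 + v * I) * ((L⁻¹ : ℝ) : ℂ)) atTop
        (𝓝 (1 + dl b x * I)) := by
      have := (h2.const_mul (2 + v * I : ℂ)).const_add (1 + dl b x * I : ℂ)
      rwa [mul_zero, add_zero] at this
    have hne : (1 + dl b x * I : ℂ) ≠ 1 := by
      intro hcon
      have := congrArg Complex.im hcon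
      simp at this
      exact h0 this
    exact (differentiableAt_riemannZeta hne).continuousAt.tendsto.comp h3

theorem arg_b (b : Fin k ⊕ Fin k → ℝ) (L : ℝ) (z : Fin k ⊕ Fin k → ℝ) (x : Fin k × Fin k) :
    1 + I * (b (Sum.inl x.1) + (z (Sum.inl x.1) - I) * (L⁻¹ : ℝ)) -
      I * (b (Sum.inr x.2) + (z (Sum.inr x.2) + I) * (L⁻¹ : ℝ)) =
    1 + dl b x * I + (2 + ((z (Sum.inl x.1) - z (Sum.inr x.2) : ℝ) : ℂ) * I) * (L⁻¹ : ℝ) := by
  unfold dl
  push_cast
  linear_combination (-2 * ((L : ℂ)⁻¹)) * Complex.I_sq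

theorem zs_scale (b : Fin k ⊕ Fin k → ℝ) {L : ℝ} (hL : 0 < L) (z : Fin k ⊕ Fin k → ℝ) :
    zs b L z / (L : ℂ) ^ (nc b) =
      FH (fun j => b (Sum.inl j) + (z (Sum.inl j) - I) * (L⁻¹ : ℝ))
        (fun j => b (Sum.inr j) + (z (Sum.inr j) + I) * (L⁻¹ : ℝ)) *
      ∏ x : Fin k × Fin k, gx b L x (z (Sum.inl x.1) - z (Sum.inr x.2)) := by
  unfold zs zab
  have h1 : ∏ x : Fin k × Fin k, (if Co b x then (L : ℂ) else 1) = (L : ℂ) ^ (nc b) := by
    rw [Finset.prod_ite, Finset.prod_const, Finset.prod_const_one, mul_one]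
    rfl
  have h2 : ∏ x : Fin k × Fin k, gx b L x (z (Sum.inl x.1) - z (Sum.inr x.2)) =
      (∏ j : Fin k, ∏ l : Fin k, riemannZeta (1 + I * (b (Sum.inl j) + (z (Sum.inl j) - I) * (L⁻¹ : ℝ)) -
      I * (b (Sum.inr l) + (z (Sum.inr l) + I) * (L⁻¹ : ℝ)))) / (L : ℂ) ^ (nc b) := by
    unfold gx
    rw [Finset.prod_div_distrib, h1, Fintype.prod_prod_type]
    congr 1
    refine Finset.prod_congr rfl fun j _ => Finset.prod_congr rfl fun l _ => ?_
    rw [arg_b b L z (j, l)]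
  rw [h2]
  ring

theorem FH_b_lim (b : Fin k ⊕ Fin k → ℝ) (z : Fin k ⊕ Fin k → ℝ) :
    Tendsto (fun L : ℝ => FH (fun j => b (Sum.inl j) + (z (Sum.inl j) - I) * (L⁻¹ : ℝ))
        (fun j => b (Sum.inr j) + (z (Sum.inr j) + I) * (L⁻¹ : ℝ))) atTop
      (𝓝 (FH (fun j => (b (Sum.inl j) : ℂ)) (fun j => (b (Sum.inr j) : ℂ)))) := by
  have h1 : ContinuousOn (fun u : ℝ => FH (fun j => b (Sum.inl j) + (z (Sum.inl j) - I) * (u : ℝ))
      (fun j => b (Sum.inr j) + (z (Sum.inr j) + I) * (u : ℝ))) (Ioo (-(1 / 8)) (1 / 8)) := by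
    refine FH_cont isOpen_Ioo (c := 1 / 8) (by norm_num) (fun j => ?_) (fun j => ?_) ?_
    · fun_prop
    · fun_prop
    · intro u hu j
      have e1 : ((b (Sum.inl j) : ℂ) + (z (Sum.inl j) - I) * (u : ℝ)).im = -u := by simp
      have e2 : ((b (Sum.inr j) : ℂ) + (z (Sum.inr j) + I) * (u : ℝ)).im = u := by simp
      rw [e1, e2, abs_neg]
      exact ⟨abs_le.2 ⟨hu.1.le, hu.2.le⟩, abs_le.2 ⟨hu.1.le, hu.2.le⟩⟩
  have h2 := h1.continuousAt (Ioo_mem_nhds (show -(1 / 8) < (0:ℝ) by norm_num) (by norm_num))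
  have h3 := h2.tendsto.comp (tendsto_inv_atTop_zero (𝕜 := ℝ))
  simp only [Complex.ofReal_zero, mul_zero, add_zero] at h3
  exact h3

theorem ge_pow_int (hp : ∀ i, TF (ξ i) (p i)) (hq : ∀ i, TF (η i) (q i)) (m : ℕ)
    (e : Fin k ⊕ Fin k) : Integrable (fun x : ℝ => ‖ge p q e x‖ * (1 + |x|) ^ m) := by
  have hb : ∃ C : ℝ, 0 ≤ C ∧ ∀ x : ℝ, ‖ge p q e x‖ * (1 + |x|) ^ (m + 2) ≤ C := by
    have key : ∀ {ξ1 : ℝ} {ψ : ℝ → ℂ}, TF ξ1 ψ → ∃ C : ℝ, 0 ≤ C ∧ ∀ x : ℝ,
        ‖P ψ (1 + x * I) / (2 * Real.pi)‖ * (1 + |x|) ^ (m + 2) ≤ C := by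
      intro ξ1 ψ h
      obtain ⟨C, hC, hb⟩ := P_bound h (m + 2)
      refine ⟨C * Real.exp (ξ1 * 1), by positivity, fun x => ?_⟩
      have h1 := hb (1 + x * I) (by simp)
      have e1 : ((1 : ℂ) + (x : ℂ) * I).re = 1 := by simp
      have e2 : |x| ≤ ‖(1 : ℂ) + (x : ℂ) * I‖ := by
        have := Complex.abs_im_le_norm ((1 : ℂ) + (x : ℂ) * I)
        simpa using this
      rw [e1] at h1
      refine le_trans ?_ h1
      apply mul_le_mul _ _ (by positivity) (norm_nonneg _)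
      · rw [norm_div]
        have h3 : ‖(2 * Real.pi : ℂ)‖ = 2 * Real.pi := by
          have : (2 * Real.pi : ℂ) = ((2 * Real.pi : ℝ) : ℂ) := by push_cast; rfl
          rw [this, Complex.norm_real, Real.norm_of_nonneg (by positivity)]
        rw [h3]
        exact div_le_self (norm_nonneg _) (by linarith [Real.pi_gt_three])
      · gcongr
    rcases e with i | j
    · exact key (hp i)
    · obtain ⟨C, hC, hb⟩ := key (hq j)
      refine ⟨C, hC, fun x => ?_⟩
      show ‖(starRingEnd ℂ) (P (q j) (1 + x * I) / (2 * Real.pi))‖ * _ ≤ _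
      rw [RCLike.norm_conj]
      exact hb x
  obtain ⟨C, hC, hb⟩ := hb
  refine (one_add_inv_sq_int.const_mul C).mono' ?_ (Eventually.of_forall fun x => ?_)
  · have := ge_cont hp hq e
    exact (by fun_prop : Continuous (fun x : ℝ => ‖ge p q e x‖ * (1 + |x|) ^ m)).aestronglyMeasurable
  · rw [Real.norm_of_nonneg (by positivity), ← div_eq_mul_inv, le_div_iff₀ (by positivity),
      mul_assoc, ← pow_add]
    exact hb x

theorem prod_v (z : Fin k ⊕ Fin k → ℝ) :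
    ∏ x : Fin k × Fin k, (1 + |z (Sum.inl x.1) - z (Sum.inr x.2)|) ^ 2 ≤
      ∏ e, (1 + |z e|) ^ (2 * k) := by
  have h1 : ∀ x : Fin k × Fin k, (1 + |z (Sum.inl x.1) - z (Sum.inr x.2)|) ^ 2 ≤
      (1 + |z (Sum.inl x.1)|) ^ 2 * (1 + |z (Sum.inr x.2)|) ^ 2 := by
    intro x
    rw [← mul_pow]
    have h2 := abs_sub (z (Sum.inl x.1)) (z (Sum.inr x.2))
    have h3 := abs_nonneg (z (Sum.inl x.1))
    have h4 := abs_nonneg (z (Sum.inr x.2))
    have h5 : 1 + |z (Sum.inl x.1) - z (Sum.inr x.2)| ≤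
        (1 + |z (Sum.inl x.1)|) * (1 + |z (Sum.inr x.2)|) := by nlinarith
    gcongr
  refine (Finset.prod_le_prod (fun _ _ => by positivity) fun x _ => h1 x).trans (le_of_eq ?_)
  rw [Finset.prod_mul_distrib, Fintype.prod_prod_type, Fintype.prod_prod_type, Fintype.prod_sum_type]
  simp only [Finset.prod_const, Finset.card_univ, Fintype.card_fin]
  congr 1
  · refine Finset.prod_congr rfl fun i _ => ?_
    rw [← pow_mul]
  · rw [← Finset.prod_pow]
    refine Finset.prod_congr rfl fun i _ => ?_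
    rw [← pow_mul]

/-- the limit kernel -/
def kb (b : Fin k ⊕ Fin k → ℝ) (z : Fin k ⊕ Fin k → ℝ) : ℂ :=
  ∏ x : Fin k × Fin k, if Co b x then 1 / (2 + ((z (Sum.inl x.1) - z (Sum.inr x.2) : ℝ) : ℂ) * I) else 1

/-- the zeta values at the pairs which do not coincide -/
def zv (b : Fin k ⊕ Fin k → ℝ) : ℂ :=
  ∏ x : Fin k × Fin k, if Co b x then 1 else riemannZeta (1 + dl b x * I)

theorem kb_zv (b : Fin k ⊕ Fin k → ℝ) (z : Fin k ⊕ Fin k → ℝ) :
    ∏ x : Fin k × Fin k, (if Co b x then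
      1 / (2 + ((z (Sum.inl x.1) - z (Sum.inr x.2) : ℝ) : ℂ) * I) else
        riemannZeta (1 + dl b x * I)) = kb b z * zv b := by
  unfold kb zv
  rw [← Finset.prod_mul_distrib]
  refine Finset.prod_congr rfl fun x _ => ?_
  split_ifs <;> simp

theorem zs_cont (b : Fin k ⊕ Fin k → ℝ) {L : ℝ} (hL : 8 < L) :
    Continuous (fun z : Fin k ⊕ Fin k → ℝ => zs b L z) := by
  have hL0 : 0 < L := by linarith
  have hLi : 0 < L⁻¹ := inv_pos.2 hL0
  have hLi8 : L⁻¹ < 1 / 8 := by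
    rw [inv_lt_comm₀ hL0 (by norm_num)]
    linarith
  unfold zs zab
  refine Continuous.mul ?_ ?_
  · rw [← continuousOn_univ]
    refine FH_cont isOpen_univ (c := 1 / 8) (by norm_num) (fun j => ?_) (fun j => ?_) ?_
    · fun_prop
    · fun_prop
    · intro z _ j
      have e1 : ((b (Sum.inl j) : ℂ) + (z (Sum.inl j) - I) * (L⁻¹ : ℝ)).im = -L⁻¹ := by simp
      have e2 : ((b (Sum.inr j) : ℂ) + (z (Sum.inr j) + I) * (L⁻¹ : ℝ)).im = L⁻¹ := by simp
      rw [e1, e2, abs_neg, abs_of_pos hLi]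
      exact ⟨hLi8.le, hLi8.le⟩
  · refine continuous_finsetProd _ fun j _ => continuous_finsetProd _ fun l _ => ?_
    rw [← continuousOn_univ]
    refine zeta_cont (w := fun z : Fin k ⊕ Fin k → ℝ =>
      1 + I * (b (Sum.inl j) + (z (Sum.inl j) - I) * (L⁻¹ : ℝ)) -
      I * (b (Sum.inr l) + (z (Sum.inr l) + I) * (L⁻¹ : ℝ))) ?_ ?_
    · fun_prop
    · intro z _ hcon
      rw [arg_b b L z (j, l)] at hcon
      have h1 := congrArg Complex.re hcon
      simp at h1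
      linarith

theorem lim_b (hp : ∀ i, TF (ξ i) (p i)) (hq : ∀ i, TF (η i) (q i)) (b : Fin k ⊕ Fin k → ℝ) :
    Tendsto (fun L : ℝ => (∫ z : Fin k ⊕ Fin k → ℝ, GG p q z * zs b L z) / (L : ℂ) ^ (nc b)) atTop
      (𝓝 (FH (fun j => (b (Sum.inl j) : ℂ)) (fun j => (b (Sum.inr j) : ℂ)) * zv b *
        ∫ z : Fin k ⊕ Fin k → ℝ, GG p q z * kb b z)) := by
  set F0 := FH (fun j => (b (Sum.inl j) : ℂ)) (fun j => (b (Sum.inr j) : ℂ)) with hF0
  have e1 : F0 * zv b * ∫ z : Fin k ⊕ Fin k → ℝ, GG p q z * kb b z =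
      ∫ z : Fin k ⊕ Fin k → ℝ, GG p q z * (F0 * (kb b z * zv b)) := by
    rw [← integral_const_mul]
    refine integral_congr_ae (Eventually.of_forall fun z => ?_)
    simp only
    ring
  rw [e1]
  have e2 : ∀ L : ℝ, (∫ z : Fin k ⊕ Fin k → ℝ, GG p q z * zs b L z) / (L : ℂ) ^ (nc b) =
      ∫ z : Fin k ⊕ Fin k → ℝ, GG p q z * (zs b L z / (L : ℂ) ^ (nc b)) := by
    intro L
    rw [← integral_div]
    refine integral_congr_ae (Eventually.of_forall fun z => ?_)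
    simp only
    ring
  simp only [e2]
  choose C hC1 hC using gx_bd b
  have hCp : 0 ≤ ∏ x, C x := Finset.prod_nonneg fun x _ => by linarith [hC1 x]
  refine tendsto_integral_filter_of_dominated_convergence
    (fun z => (BF k (1 / 8) * ∏ x, C x) * ∏ e, (‖ge p q e (z e)‖ * (1 + |z e|) ^ (2 * k)))
    ?_ ?_ ?_ ?_
  · filter_upwards [eventually_gt_atTop 8] with L hL
    exact ((GG_cont hp hq).mul ((zs_cont b hL).div_const _)).aestronglyMeasurable
  · filter_upwards [eventually_gt_atTop 8, eventually_all.2 hC] with L hL hz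
    refine Eventually.of_forall fun z => ?_
    have hL0 : 0 < L := by linarith
    have hLi : 0 < L⁻¹ := inv_pos.2 hL0
    have hLi8 : L⁻¹ < 1 / 8 := by
      rw [inv_lt_comm₀ hL0 (by norm_num)]
      linarith
    rw [zs_scale b hL0, norm_mul, norm_mul]
    have h1 : ‖FH (fun j => b (Sum.inl j) + (z (Sum.inl j) - I) * (L⁻¹ : ℝ))
        (fun j => b (Sum.inr j) + (z (Sum.inr j) + I) * (L⁻¹ : ℝ))‖ ≤ BF k (1 / 8) := by
      refine FH_le (by norm_num) fun j => ?_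
      have e1 : ((b (Sum.inl j) : ℂ) + (z (Sum.inl j) - I) * (L⁻¹ : ℝ)).im = -L⁻¹ := by simp
      have e2 : ((b (Sum.inr j) : ℂ) + (z (Sum.inr j) + I) * (L⁻¹ : ℝ)).im = L⁻¹ := by simp
      rw [e1, e2, abs_neg, abs_of_pos hLi]
      exact ⟨hLi8.le, hLi8.le⟩
    have h2 : ‖∏ x : Fin k × Fin k, gx b L x (z (Sum.inl x.1) - z (Sum.inr x.2))‖ ≤
        (∏ x, C x) * ∏ e, (1 + |z e|) ^ (2 * k) := by
      rw [norm_prod]
      refine (Finset.prod_le_prod (fun _ _ => norm_nonneg _) fun x _ => hz x _).trans ?_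
      rw [Finset.prod_mul_distrib]
      exact mul_le_mul_of_nonneg_left (prod_v z) hCp
    have hBF : 0 ≤ BF k (1 / 8) := (norm_nonneg _).trans h1
    have h3 : ‖GG p q z‖ = ∏ e, ‖ge p q e (z e)‖ := by unfold GG; rw [norm_prod]
    calc _ ≤ ‖GG p q z‖ * (BF k (1 / 8) * ((∏ x, C x) * ∏ e, (1 + |z e|) ^ (2 * k))) := by
          gcongr
      _ = _ := by rw [h3, Finset.prod_mul_distrib]; ring
  · exact (Integrable.fintype_prod (f := fun e x => ‖ge p q e x‖ * (1 + |x|) ^ (2 * k))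
      fun e => ge_pow_int hp hq (2 * k) e).const_mul _
  · refine Eventually.of_forall fun z => ?_
    have h1 : Tendsto (fun L : ℝ => FH (fun j => b (Sum.inl j) + (z (Sum.inl j) - I) * (L⁻¹ : ℝ))
        (fun j => b (Sum.inr j) + (z (Sum.inr j) + I) * (L⁻¹ : ℝ)) *
      ∏ x : Fin k × Fin k, gx b L x (z (Sum.inl x.1) - z (Sum.inr x.2)))
        atTop (𝓝 (F0 * (kb b z * zv b))) := by
      refine (FH_b_lim b z).mul ?_
      rw [← kb_zv]
      exact tendsto_finsetProd _ fun x _ => gx_lim b x _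
    refine (h1.congr' ?_).const_mul _
    filter_upwards [eventually_gt_atTop 0] with L hL
    exact (zs_scale b hL z).symm

end

end Q80.BS
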