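import Pool.Agent.Q80.BS.Dp

set_option autoImplicit false

/-! Base shifts: the tested moment is the first term of the recipe on a shifted contour. -/

namespace Q80.BS

open MeasureTheory Filter Topology Complex Set
open Q97.MM (Adm wt wt_pos pt abs_le_scaled scaled_integrable scaled_integral)
open Q80.SP Q80.VS
open Pool.Agent.W182.KO (TF tau dk P P_bound P_diff P_inv J2 J2_nonneg one_add_inv_sq_int)
open Pool.Agent.TH612.CF (FH zab)

noncomputable section

variable {k : ℕ} {ξ η : Fin k → ℝ} {p q : Fin k → ℝ → ℂ}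

theorem kap32 (B : ℕ) :
    Tendsto (fun T : ℝ => T⁻¹ + T ^ B * Real.exp (-(Real.log T ^ 2 / 32))) atTop (𝓝 0) := by
  have h1 : Tendsto (fun T : ℝ => T ^ B * Real.exp (-(Real.log T ^ 2 / 32))) atTop (𝓝 0) := by
    have h2 : Tendsto (fun L : ℝ => Real.exp (B * L - L ^ 2 / 32)) atTop (𝓝 0) := by
      refine Real.tendsto_exp_atBot.comp ?_
      have h3 : Tendsto (fun L : ℝ => L * (B - L / 32)) atTop atBot := by
        refine tendsto_id.atTop_mul_atBot₀ ?_
        have : Tendsto (fun L : ℝ => (B : ℝ) + -(L / 32)) atTop atBot :=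
          tendsto_const_nhds.add_atBot (tendsto_neg_atTop_atBot.comp
            (tendsto_id.atTop_div_const (by norm_num)))
        refine this.congr fun L => ?_
        ring
      refine h3.congr fun L => ?_
      ring
    refine (h2.comp Real.tendsto_log_atTop).congr' ?_
    filter_upwards [eventually_gt_atTop 0] with T hT
    simp only [Function.comp]
    rw [sub_eq_add_neg, Real.exp_add]
    congr 1
    rw [mul_comm, ← Real.rpow_def_of_pos hT, Real.rpow_natCast]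
  simpa using tendsto_inv_atTop_zero.add h1

theorem smb_meas (hp : ∀ i, TF (ξ i) (p i)) (hq : ∀ i, TF (η i) (q i)) (b : Fin k ⊕ Fin k → ℝ)
    (L : ℝ) : AEStronglyMeasurable (fun t : ℝ => ∏ e, smb p q b L t e) volume := by
  have h : ∀ e, AEStronglyMeasurable (fun t : ℝ => sme p q L t e) volume := by
    rintro (i | j)
    · exact sm_meas (hp i) L (hz_cont 1)
    · exact Complex.continuous_conj.comp_aestronglyMeasurable (sm_meas (hq j) L (hz_cont 1))
  refine Finset.aestronglyMeasurable_fun_prod _ fun e _ => ?_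
  exact (h e).comp_measurePreserving (measurePreserving_add_right volume (b e))

theorem main_b (hk : 1 ≤ k) (hp : ∀ i, TF (ξ i) (p i)) (hq : ∀ i, TF (η i) (q i))
    (hξ : ∀ i, 0 ≤ ξ i) (hη : ∀ i, 0 ≤ η i) {u : ℝ} (hu : ∑ i, ξ i < u)
    (b : Fin k ⊕ Fin k → ℝ) (B0 : ℕ) :
    ∀ᶠ T : ℝ in atTop, ∀ U : ℝ, Adm T U → T ^ u ≤ U →
      ‖(∫ z : Fin k ⊕ Fin k → ℝ, (∏ e, fe p q e (z e)) *
          Pool.Agent.Q80.TM.SS k T U (fun e => ((z e + Real.log T * b e : ℝ) : ℂ))) -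
        ((U * √Real.pi : ℝ) : ℂ) * ∫ z : Fin k ⊕ Fin k → ℝ, GG p q z * zs b (Real.log T) z‖ ≤
        (T ^ B0)⁻¹ := by
  obtain ⟨C1, B, hC1, herr⟩ := errb hp hq hξ hη b (B0 + 2)
  obtain ⟨Ca, hCa, ha⟩ := ah_tw_bd hp (fun i L => b (Sum.inl i) * L)
  obtain ⟨Cb, hCb, hb⟩ := ah_tw_bd hq (fun i L => b (Sum.inr i) * L)
  have hb0 := b0_nonneg b
  set X : ℝ := (∑ i, ξ i) + ∑ i, η i with hX
  have hs1 : 0 ≤ ∑ i, ξ i := Finset.sum_nonneg fun i _ => hξ i
  have hs2 : 0 ≤ ∑ i, η i := Finset.sum_nonneg fun i _ => hη i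
  have hX0 : 0 ≤ X := by linarith
  have hξX : ∀ i, ξ i ≤ X := fun i => by
    have := Finset.single_le_sum (f := ξ) (fun i _ => hξ i) (Finset.mem_univ i); linarith
  have hηX : ∀ i, η i ≤ X := fun i => by
    have := Finset.single_le_sum (f := η) (fun i _ => hη i) (Finset.mem_univ i); linarith
  have hK := Q97.MM.KK_nonneg (4 * k)
  have hpi1 : 0 ≤ √Real.pi := Real.sqrt_nonneg _
  -- small quantities
  have l1 : Tendsto (fun T : ℝ => C1 * (T⁻¹ + T ^ (B + B0 + 1) * Real.exp (-(Real.log T ^ 2 / 32))) *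
      Q97.MM.KK (4 * k)) atTop (𝓝 0) := by
    simpa using ((kap32 (B + B0 + 1)).const_mul C1).mul_const (Q97.MM.KK (4 * k))
  have l2 := off_lim (√Real.pi * (2 ^ (2 * k + 2) * (Ca * Cb))) (2 * X * k + (B0 + 1))
    (2 * (u - ∑ i, ξ i)) (by linarith)
  filter_upwards [l1.eventually (gt_mem_nhds (show (0:ℝ) < 1 / 2 by positivity)),
    l2.eventually (gt_mem_nhds (show (0:ℝ) < 1 / 2 by positivity)),
    eventually_ge_atTop (4 + 4 * b0 b),
    Real.tendsto_log_atTop.eventually_gt_atTop 8] with T g1 g2 hT' hL8 U hA hUu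
  have hT : 4 ≤ T := by linarith
  have hT0 : 0 < T := by linarith
  have hT1 : 1 ≤ T := by linarith
  have hU := hA.pos
  have hUT : U ≤ T := hA.le
  set L := Real.log T with hL
  have hL0 : 0 < L := by linarith
  have hTX : ∀ a : ℝ, Real.exp (a * L) = T ^ a := by
    intro a
    rw [mul_comm, hL, ← Real.rpow_def_of_pos hT0]
  set N : ℕ := ⌊T ^ X⌋₊ + 1 with hN
  have hN1 : T ^ X < N := by
    rw [hN]; push_cast; exact Nat.lt_floor_add_one _
  have hTX1 : 1 ≤ T ^ X := Real.one_le_rpow hT1 hX0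
  have hN2 : (N : ℝ) ≤ 2 * T ^ X := by
    have := Nat.floor_le (show 0 ≤ T ^ X by positivity)
    rw [hN]; push_cast; linarith
  have hmono : ∀ a : ℝ, a ≤ X → Real.exp (a * L) < N := by
    intro a haX
    rw [hTX]
    exact (Real.rpow_le_rpow_of_exponent_le hT1 haX).trans_lt hN1
  set M : ℕ := N ^ k + 1 with hM
  have hNM : N ^ k < M := Nat.lt_succ_self _
  have hM2 : (M : ℝ) ≤ 2 ^ (k + 1) * T ^ (X * k) := by
    have h1 : (N : ℝ) ^ k ≤ (2 * T ^ X) ^ k := by gcongr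
    have h2 : (2 * T ^ X) ^ k = 2 ^ k * T ^ (X * k) := by
      rw [mul_pow, ← Real.rpow_natCast (T ^ X), ← Real.rpow_mul hT0.le]
    have h3 : 1 ≤ (2:ℝ) ^ k * T ^ (X * k) := by
      have := one_le_pow₀ (show (1:ℝ) ≤ 2 by norm_num) (n := k)
      have := Real.one_le_rpow hT1 (show 0 ≤ X * k by positivity)
      nlinarith
    rw [hM]
    push_cast
    rw [pow_succ]
    linarith
  have hexpM : Real.exp (L * ∑ i, ξ i) < M := by
    rw [mul_comm]
    refine (hmono _ (by linarith)).trans_le ?_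
    have h1 : N ≤ N ^ k := Nat.le_self_pow (by omega) N
    rw [hM]
    exact_mod_cast h1.trans (Nat.le_succ _)
  have hdp := dpb_prod hp hq b hL0 (fun i => hmono _ (hξX i)) (fun i => hmono _ (hηX i)) hNM
  -- the comparison with the smoothed factors
  have hdc : Continuous (fun t : ℝ => (∏ e, dpb p q b L t e) * (wt T U t : ℂ)) := by
    simp only [hdp]
    exact ((pol_cont M _).mul (Complex.continuous_conj.comp (pol_cont M _))).mul
      (Complex.continuous_ofReal.comp (wt_cont T U))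
  have hdi : Integrable (fun t : ℝ => (∏ e, dpb p q b L t e) * (wt T U t : ℂ)) := by
    refine ((wt_int hU T).const_mul ((∑ n ∈ Finset.range M, ‖ah (twp b L p) L n‖) *
      ∑ n ∈ Finset.range M, ‖ah (twq b L q) L n‖)).mono' hdc.aestronglyMeasurable
      (Eventually.of_forall fun t => ?_)
    rw [hdp, norm_mul, norm_mul, RCLike.norm_conj, Complex.norm_real,
      Real.norm_of_nonneg (wt_pos _ _ _).le]
    refine mul_le_mul_of_nonneg_right ?_ (wt_pos _ _ _).le
    exact mul_le_mul (pol_le _ _ _) (pol_le _ _ _) (norm_nonneg _)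
      (Finset.sum_nonneg fun _ _ => norm_nonneg _)
  have hdb : ∀ t : ℝ, ‖((∏ e, smb p q b L t e) - ∏ e, dpb p q b L t e) * (wt T U t : ℂ)‖ ≤
      C1 * ((T ^ (B0 + 2))⁻¹ + T ^ B * Real.exp (-(L ^ 2 / 32))) *
          ((1 + |(t - T) / U|) ^ (4 * k) * Real.exp (-(((t - T) / U) ^ 2 / 2))) := by
    intro t
    rw [norm_mul, Complex.norm_real, Real.norm_of_nonneg (wt_pos _ _ _).le]
    exact herr T U hT' hA t
  have hdm : AEStronglyMeasurable (fun t : ℝ =>
      ((∏ e, smb p q b L t e) - ∏ e, dpb p q b L t e) * (wt T U t : ℂ)) volume := by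
    have h1 : Continuous (fun t : ℝ => ∏ e, dpb p q b L t e) := by
      simp only [hdp]
      exact (pol_cont M _).mul (Complex.continuous_conj.comp (pol_cont M _))
    exact ((smb_meas hp hq b L).sub h1.aestronglyMeasurable).mul
      (Complex.continuous_ofReal.comp (wt_cont T U)).aestronglyMeasurable
  have hdi2 : Integrable (fun t : ℝ =>
      ((∏ e, smb p q b L t e) - ∏ e, dpb p q b L t e) * (wt T U t : ℂ)) :=
    ((scaled_integrable (4 * k) T hU).const_mul _).mono' hdm (Eventually.of_forall hdb)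
  have hTB : 0 < T ^ B0 := by positivity
  have hE1 : ‖∫ t : ℝ, ((∏ e, smb p q b L t e) - ∏ e, dpb p q b L t e) * (wt T U t : ℂ)‖ ≤
      (1 / 2) * (T ^ B0)⁻¹ := by
    refine (norm_integral_le_of_norm_le ((scaled_integrable (4 * k) T hU).const_mul _)
      (Eventually.of_forall hdb)).trans ?_
    rw [integral_const_mul, scaled_integral (4 * k) T hU]
    have e1 : C1 * ((T ^ (B0 + 2))⁻¹ + T ^ B * Real.exp (-(L ^ 2 / 32))) *
        (T * Q97.MM.KK (4 * k)) = (C1 * (T⁻¹ + T ^ (B + B0 + 1) * Real.exp (-(L ^ 2 / 32))) *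
          Q97.MM.KK (4 * k)) * (T ^ B0)⁻¹ := by
      have : T ^ (B + B0 + 1) = T ^ B * T ^ B0 * T := by rw [pow_succ, pow_add]
      rw [this, pow_add]
      field_simp
    calc C1 * ((T ^ (B0 + 2))⁻¹ + T ^ B * Real.exp (-(L ^ 2 / 32))) * (U * Q97.MM.KK (4 * k)) ≤
        C1 * ((T ^ (B0 + 2))⁻¹ + T ^ B * Real.exp (-(L ^ 2 / 32))) * (T * Q97.MM.KK (4 * k)) := by
          gcongr
      _ = _ := e1
      _ ≤ _ := by gcongr
  have hE2 : ∫ t : ℝ, (∏ e, smb p q b L t e) * (wt T U t : ℂ) =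
      (∫ t : ℝ, ((∏ e, smb p q b L t e) - ∏ e, dpb p q b L t e) * (wt T U t : ℂ)) +
        ∫ t : ℝ, (∏ e, dpb p q b L t e) * (wt T U t : ℂ) := by
    rw [← integral_add hdi2 hdi]
    refine integral_congr_ae (Eventually.of_forall fun t => ?_)
    simp only
    ring
  -- the mean value theorem
  have hmv := mean (X := Real.exp (L * ∑ i, ξ i)) hU T M (ah_zero (twp b L p) L)
    (ah_zero (twq b L q) L)
    (fun m hm => ah_supp (fun i => tw_TF (hp i) _) hL0 hm) (Real.exp_pos _)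
  have hE3 : ∫ t : ℝ, (∏ e, dpb p q b L t e) * (wt T U t : ℂ) =
      ∫ t : ℝ, pol M (ah (twp b L p) L) t * (starRingEnd ℂ) (pol M (ah (twq b L q) L) t) *
        (wt T U t : ℂ) := by
    simp only [hdp]
  rw [← hE3, diag_b hp hq b hL8 hexpM] at hmv
  have hoff : (U * √Real.pi * Real.exp (-(U ^ 2 / (16 * Real.exp (L * ∑ i, ξ i) ^ 2)))) *
        ((∑ m ∈ Finset.range M, ‖ah (twp b L p) L m‖) *
          ∑ n ∈ Finset.range M, ‖ah (twq b L q) L n‖) ≤ (1 / 2) * (T ^ B0)⁻¹ := by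
    have h1 : ∑ m ∈ Finset.range M, ‖ah (twp b L p) L m‖ ≤ M * Ca := by
      refine (Finset.sum_le_sum fun m _ => ha L m).trans (le_of_eq ?_)
      rw [Finset.sum_const, Finset.card_range, nsmul_eq_mul]
    have h2 : ∑ m ∈ Finset.range M, ‖ah (twq b L q) L m‖ ≤ M * Cb := by
      refine (Finset.sum_le_sum fun m _ => hb L m).trans (le_of_eq ?_)
      rw [Finset.sum_const, Finset.card_range, nsmul_eq_mul]
    have h3 : T ^ (2 * (u - ∑ i, ξ i)) / 16 ≤ U ^ 2 / (16 * Real.exp (L * ∑ i, ξ i) ^ 2) := by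
      have e1 : Real.exp (L * ∑ i, ξ i) = T ^ (∑ i, ξ i) := by rw [mul_comm, hTX]
      rw [e1, show 2 * (u - ∑ i, ξ i) = (u + u) - ((∑ i, ξ i) + ∑ i, ξ i) by ring,
        Real.rpow_sub hT0, Real.rpow_add hT0, Real.rpow_add hT0, div_div, ← sq, ← sq, mul_comm (16:ℝ)]
      gcongr
    have h4 : Real.exp (-(U ^ 2 / (16 * Real.exp (L * ∑ i, ξ i) ^ 2))) ≤
        Real.exp (-(T ^ (2 * (u - ∑ i, ξ i)) / 16)) := by
      apply Real.exp_le_exp.2
      linarith
    have h5 : (M : ℝ) * M ≤ 2 ^ (2 * k + 2) * T ^ (2 * X * k) := by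
      calc (M : ℝ) * M ≤ (2 ^ (k + 1) * T ^ (X * k)) * (2 ^ (k + 1) * T ^ (X * k)) := by gcongr
        _ = 2 ^ (2 * k + 2) * (T ^ (X * k) * T ^ (X * k)) := by
            rw [show 2 * k + 2 = (k + 1) + (k + 1) by ring, pow_add]; ring
        _ = _ := by rw [← Real.rpow_add hT0]; congr 2; ring
    have hMnn : (0:ℝ) ≤ M := Nat.cast_nonneg _
    have h6 : T ^ (2 * X * k + (B0 + 1)) = T ^ (2 * X * k) * (T ^ B0 * T) := by
      rw [Real.rpow_add hT0, Real.rpow_add hT0, Real.rpow_natCast, Real.rpow_one]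
    calc _ ≤ (T * √Real.pi * Real.exp (-(T ^ (2 * (u - ∑ i, ξ i)) / 16))) *
          ((M * Ca) * (M * Cb)) := by
          apply mul_le_mul _ _ (by positivity) (by positivity)
          · gcongr
          · exact mul_le_mul h1 h2 (Finset.sum_nonneg fun _ _ => norm_nonneg _) (by positivity)
      _ = ((M : ℝ) * M) * (T * (√Real.pi * (Ca * Cb)) *
            Real.exp (-(T ^ (2 * (u - ∑ i, ξ i)) / 16))) := by ring
      _ ≤ (2 ^ (2 * k + 2) * T ^ (2 * X * k)) * (T * (√Real.pi * (Ca * Cb)) *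
            Real.exp (-(T ^ (2 * (u - ∑ i, ξ i)) / 16))) := by gcongr
      _ = (√Real.pi * (2 ^ (2 * k + 2) * (Ca * Cb)) * (T ^ (2 * X * k + (B0 + 1)) *
            Real.exp (-(T ^ (2 * (u - ∑ i, ξ i)) / 16)))) * (T ^ B0)⁻¹ := by
          rw [h6]
          field_simp
      _ ≤ _ := by gcongr
  have hmv2 := hmv.trans hoff
  rw [fubb hp hq b hT hA, hE2]
  have hfin : ∀ a c d : ℂ, ‖a‖ ≤ (1 / 2) * (T ^ B0)⁻¹ → ‖c - d‖ ≤ (1 / 2) * (T ^ B0)⁻¹ →
      ‖(a + c) - d‖ ≤ (T ^ B0)⁻¹ := by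
    intro a c d h1 h2
    have e : (a + c) - d = a + (c - d) := by ring
    rw [e]
    refine (norm_add_le _ _).trans ?_
    linarith
  exact hfin _ _ _ hE1 hmv2

end

end Q80.BS
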