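import Pool.Agent.Q80.BS.Li

set_option autoImplicit false

/-! Base shifts: the limit kernel as an integral over nonnegative matrices supported on the
coincidences. -/

namespace Q80.BS

open MeasureTheory Filter Topology Complex Set
open Q80.SP Q80.VS
open Pool.Agent.W182.KO (TF tau dk P P_bound P_diff P_inv J2 J2_nonneg one_add_inv_sq_int)

noncomputable section

variable {k : ℕ} {ξ η : Fin k → ℝ} {p q : Fin k → ℝ → ℂ}

/-- a matrix with entries at the coincidences, as a full matrix -/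
def ex (b : Fin k ⊕ Fin k → ℝ) (u : {x : Fin k × Fin k // Co b x} → ℝ) (x : Fin k × Fin k) : ℝ :=
  if h : Co b x then u ⟨x, h⟩ else 0

/-- the measure on nonnegative matrices supported on the coincidences -/
def mb (b : Fin k ⊕ Fin k → ℝ) : Measure ({x : Fin k × Fin k // Co b x} → ℝ) :=
  Measure.pi fun _ => volume.restrict (Ioi (0:ℝ))

instance (b : Fin k ⊕ Fin k → ℝ) : SigmaFinite (mb b) := by unfold mb; infer_instance

/-- the transport integral over the matrices supported on the coincidences -/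
def TTb (b : Fin k ⊕ Fin k → ℝ) (p q : Fin k → ℝ → ℂ) : ℂ :=
  ∫ u, ∏ e, pq p q e (rs (ex b u) e) ∂(mb b)

theorem ex_sum (b : Fin k ⊕ Fin k → ℝ) (u : {x : Fin k × Fin k // Co b x} → ℝ)
    (c : Fin k × Fin k → ℂ) :
    ∑ x, (ex b u x : ℂ) * c x = ∑ x : {x : Fin k × Fin k // Co b x}, (u x : ℂ) * c x.1 := by
  have h1 : ∑ x ∈ Finset.univ.filter (Co b), (ex b u x : ℂ) * c x =
      ∑ x, (ex b u x : ℂ) * c x := by
    refine Finset.sum_filter_of_ne fun x _ hx => ?_
    by_contra h
    apply hx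
    unfold ex
    rw [dif_neg h]
    simp
  rw [← h1, Finset.sum_subtype (Finset.univ.filter (Co b)) (p := Co b) (by simp)]
  refine Finset.sum_congr rfl fun x _ => ?_
  unfold ex
  rw [dif_pos x.2]

theorem kb_eq (b : Fin k ⊕ Fin k → ℝ) (z : Fin k ⊕ Fin k → ℝ) :
    kb b z = ∫ u, ∏ e, cexp (-(rs (ex b u) e * we e (z e))) ∂(mb b) := by
  have h1 : ∀ u : {x : Fin k × Fin k // Co b x} → ℝ,
      ∏ e, cexp (-(rs (ex b u) e * we e (z e))) =
      ∏ x : {x : Fin k × Fin k // Co b x}, cexp (-(u x *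
        (2 + ((z (Sum.inl x.1.1) - z (Sum.inr x.1.2) : ℝ) : ℂ) * I))) := by
    intro u
    rw [← Complex.exp_sum, ← Complex.exp_sum]
    congr 1
    rw [Finset.sum_neg_distrib, Finset.sum_neg_distrib, rs_sum, ex_sum]
  simp only [h1]
  unfold mb
  rw [integral_fintype_prod_eq_prod (fun (x : {x : Fin k × Fin k // Co b x}) (v : ℝ) => cexp (-(v *
        (2 + ((z (Sum.inl x.1.1) - z (Sum.inr x.1.2) : ℝ) : ℂ) * I))))]
  unfold kb
  rw [← Finset.prod_filter, Finset.prod_subtype (Finset.univ.filter (Co b)) (p := Co b) (by simp)]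
  refine Finset.prod_congr rfl fun x _ => ?_
  rw [exp_int (by simp)]

theorem ex_cont (b : Fin k ⊕ Fin k → ℝ) : Continuous (fun u : {x : Fin k × Fin k // Co b x} → ℝ =>
    ex b u) := by
  refine continuous_pi fun x => ?_
  unfold ex
  by_cases h : Co b x
  · simp only [dif_pos h]
    exact continuous_apply _
  · simp only [dif_neg h]
    exact continuous_const

theorem mb_exp_int (b : Fin k ⊕ Fin k → ℝ) :
    Integrable (fun u : {x : Fin k × Fin k // Co b x} → ℝ => ∏ x, Real.exp (-(2 * u x))) (mb b) := by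
  unfold mb
  refine Integrable.fintype_prod (f := fun (_ : {x : Fin k × Fin k // Co b x}) (v : ℝ) =>
    Real.exp (-(2 * v))) fun x => ?_
  have := exp_neg_integrableOn_Ioi 0 (show (0:ℝ) < 2 by norm_num)
  refine this.congr (Eventually.of_forall fun v => ?_)
  simp only [neg_mul]

theorem exp_rsb_norm (b : Fin k ⊕ Fin k → ℝ) (u : {x : Fin k × Fin k // Co b x} → ℝ)
    (z : Fin k ⊕ Fin k → ℝ) :
    ‖∏ e, cexp (-(rs (ex b u) e * we e (z e)))‖ = ∏ x, Real.exp (-(2 * u x)) := by
  rw [← Complex.exp_sum, Finset.sum_neg_distrib, rs_sum, ex_sum, Complex.norm_exp, ← Real.exp_sum]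
  congr 1
  rw [Complex.neg_re, Complex.re_sum, Finset.sum_neg_distrib]
  congr 1
  refine Finset.sum_congr rfl fun x _ => ?_
  rw [Complex.re_ofReal_mul]
  simp
  ring

theorem GG_kb (b : Fin k ⊕ Fin k → ℝ) (hp : ∀ i, TF (ξ i) (p i))
    (hq : ∀ i, TF (η i) (q i)) : ∫ z : Fin k ⊕ Fin k → ℝ, GG p q z * kb b z = TTb b p q := by
  have h1 : ∀ z : Fin k ⊕ Fin k → ℝ, GG p q z * kb b z =
      ∫ u, GG p q z * ∏ e, cexp (-(rs (ex b u) e * we e (z e))) ∂(mb b) := by
    intro z
    rw [kb_eq, integral_const_mul]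
  simp only [h1]
  rw [integral_integral_swap]
  · unfold TTb
    refine integral_congr_ae (Eventually.of_forall fun u => ?_)
    exact prod_inv hp hq (rs (ex b u))
  · have h2 : Integrable (fun x : (Fin k ⊕ Fin k → ℝ) × ({x : Fin k × Fin k // Co b x} → ℝ) =>
        ‖GG p q x.1‖ * ∏ y, Real.exp (-(2 * x.2 y))) (volume.prod (mb b)) :=
      (GG_int hp hq).norm.mul_prod (mb_exp_int b)
    refine h2.mono' ?_ (Eventually.of_forall fun x => ?_)
    · have hc : Continuous (fun x : (Fin k ⊕ Fin k → ℝ) × ({x : Fin k × Fin k // Co b x} → ℝ) =>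
          GG p q x.1 * ∏ e, cexp (-(rs (ex b x.2) e * we e (x.1 e)))) := by
        refine ((GG_cont hp hq).comp continuous_fst).mul (continuous_finsetProd _ fun e _ => ?_)
        have h3 := (we_cont e).comp ((continuous_apply (A := fun _ => ℝ) e).comp
          (continuous_fst (X := Fin k ⊕ Fin k → ℝ) (Y := {x : Fin k × Fin k // Co b x} → ℝ)))
        have h4 := (Complex.continuous_ofReal.comp ((rs_cont e).comp (ex_cont b))).comp
          (continuous_snd (X := Fin k ⊕ Fin k → ℝ) (Y := {x : Fin k × Fin k // Co b x} → ℝ))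
        exact Complex.continuous_exp.comp (h4.mul h3).neg
      exact hc.aestronglyMeasurable
    · show ‖GG p q x.1 * ∏ e, cexp (-(rs (ex b x.2) e * we e (x.1 e)))‖ ≤ _
      rw [norm_mul, exp_rsb_norm]

theorem mb_eq (b : Fin k ⊕ Fin k → ℝ) : mb b = (volume : Measure
    ({x : Fin k × Fin k // Co b x} → ℝ)).restrict (Set.univ.pi fun _ => Ioi (0:ℝ)) := by
  unfold mb
  rw [volume_pi, Measure.restrict_pi_pi]

/-- the leading term for arbitrary base shifts -/
theorem lim_b' (hp : ∀ i, TF (ξ i) (p i)) (hq : ∀ i, TF (η i) (q i)) (b : Fin k ⊕ Fin k → ℝ) :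
    Tendsto (fun L : ℝ => (∫ z : Fin k ⊕ Fin k → ℝ, GG p q z * zs b L z) / (L : ℂ) ^ (nc b)) atTop
      (𝓝 (Pool.Agent.TH612.CF.FH (fun j => (b (Sum.inl j) : ℂ)) (fun j => (b (Sum.inr j) : ℂ)) *
        zv b * TTb b p q)) := by
  have h := lim_b hp hq b
  rwa [GG_kb b hp hq] at h

end

end Q80.BS
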